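import Mathlib

set_option autoImplicit false
set_option maxHeartbeats 1000000
set_option linter.unusedSectionVars false

namespace Pool.Agent.Helper8.Diss

open Finset

variable {ι : Type*} [DecidableEq ι]

/-- no nontrivial relation with coefficients in `{-1, 0, 1}` -/
def DissF (S : Finset ι) (w : ι → ℤ) : Prop :=
  ∀ ε : ι → ℤ, (∀ i ∈ S, |ε i| ≤ 1) → ∑ i ∈ S, ε i * w i = 0 → ∀ i ∈ S, ε i = 0

/-- the level at which a set of integers splits -/
lemma exists_split (S : Finset ι) (w : ι → ℤ) (hinj : Set.InjOn w S) (k : ℕ)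
    (hk : ∀ x ∈ S, ∀ y ∈ S, (2 : ℤ) ^ k ∣ w x - w y) (h2 : 1 < S.card) :
    ∃ k', k ≤ k' ∧ (∀ x ∈ S, ∀ y ∈ S, (2 : ℤ) ^ k' ∣ w x - w y) ∧
      ∃ x ∈ S, ∃ y ∈ S, ¬ (2 : ℤ) ^ (k' + 1) ∣ w x - w y := by
  classical
  obtain ⟨a, ha, b, hb, hab⟩ := Finset.one_lt_card.mp h2
  have hne : w a - w b ≠ 0 := by
    intro h
    exact hab (hinj ha hb (by linarith))
  have hex : ∃ j : ℕ, ¬ ∀ x ∈ S, ∀ y ∈ S, (2 : ℤ) ^ j ∣ w x - w y := by
    refine ⟨(w a - w b).natAbs, fun h => ?_⟩
    have h1 := h a ha b hb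
    have h3 : (2 : ℤ) ^ (w a - w b).natAbs ≤ |w a - w b| :=
      Int.le_of_dvd (abs_pos.mpr hne) ((dvd_abs _ _).mpr h1)
    have h4 : (w a - w b).natAbs < 2 ^ (w a - w b).natAbs := Nat.lt_two_pow_self
    have h5 : (((w a - w b).natAbs : ℕ) : ℤ) < (2 : ℤ) ^ (w a - w b).natAbs := by exact_mod_cast h4
    rw [Int.natCast_natAbs] at h5
    linarith
  obtain ⟨j₀, hspec, hmin⟩ : ∃ j₀ : ℕ, (¬ ∀ x ∈ S, ∀ y ∈ S, (2 : ℤ) ^ j₀ ∣ w x - w y) ∧
      ∀ j < j₀, ∀ x ∈ S, ∀ y ∈ S, (2 : ℤ) ^ j ∣ w x - w y := by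
    refine ⟨Nat.find hex, Nat.find_spec hex, fun j hj => ?_⟩
    exact not_not.mp (Nat.find_min hex hj)
  have hpos : k < j₀ := by
    by_contra hle
    push Not at hle
    apply hspec
    intro x hx y hy
    exact (pow_dvd_pow _ hle).trans (hk x hx y hy)
  obtain ⟨k', rfl⟩ : ∃ k', j₀ = k' + 1 := ⟨j₀ - 1, by omega⟩
  refine ⟨k', by omega, hmin k' (by omega), ?_⟩
  push Not at hspec
  exact hspec

/-- the path in the binary tree of residues -/
lemma exists_path (m : ℕ) : ∀ (k : ℕ) (S : Finset ι) (w : ι → ℤ), Set.InjOn w S →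
    (∀ x ∈ S, ∀ y ∈ S, (2 : ℤ) ^ k ∣ w x - w y) → 2 ^ m < 2 * S.card →
    ∃ i₀ ∈ S, ∃ E : Finset ℕ, E.card = m ∧ (∀ e ∈ E, k ≤ e) ∧ ∃ x : ℕ → ι, ∀ e ∈ E,
      x e ∈ S ∧ (2 : ℤ) ^ e ∣ w (x e) - w i₀ ∧ ¬ (2 : ℤ) ^ (e + 1) ∣ w (x e) - w i₀ := by
  classical
  induction m with
  | zero =>
    intro k S w _ _ hc
    have hS : S.Nonempty := by
      rw [← Finset.card_pos]; omega
    obtain ⟨i₀, hi₀⟩ := hS
    exact ⟨i₀, hi₀, ∅, rfl, by simp, fun _ => i₀, by simp⟩
  | succ m ih =>
    intro k S w hinj hk hc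
    have h1 : 1 < S.card := by
      have : 1 ≤ 2 ^ m := Nat.one_le_two_pow
      rw [pow_succ] at hc
      omega
    obtain ⟨k', hkk', hdiv, a, ha, b, hb, hab⟩ := exists_split S w hinj k hk h1
    -- the two classes
    set S₀ := S.filter (fun z => (2 : ℤ) ^ (k' + 1) ∣ w z - w a) with hS₀
    set S₁ := S.filter (fun z => ¬ (2 : ℤ) ^ (k' + 1) ∣ w z - w a) with hS₁
    have hsum : S₀.card + S₁.card = S.card := Finset.card_filter_add_card_filter_not _
    have ha₀ : a ∈ S₀ := by
      rw [hS₀, Finset.mem_filter]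
      exact ⟨ha, by simp⟩
    have hb₁ : b ∈ S₁ := by
      rw [hS₁, Finset.mem_filter]
      refine ⟨hb, fun h => hab ?_⟩
      rw [← neg_sub]
      exact (dvd_neg.mpr h)
    -- elements of `S₁` are congruent mod `2^(k'+1)`
    have hcong : ∀ z ∈ S, ∀ y ∈ S, ¬ (2 : ℤ) ^ (k' + 1) ∣ w z - w a →
        ¬ (2 : ℤ) ^ (k' + 1) ∣ w y - w a → (2 : ℤ) ^ (k' + 1) ∣ w z - w y := by
      intro z hz y hy h1 h2
      obtain ⟨c, hc⟩ := hdiv z hz a ha
      obtain ⟨d, hd⟩ := hdiv y hy a ha
      have hco : ¬ (2 : ℤ) ∣ c := by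
        intro h
        apply h1
        obtain ⟨e, rfl⟩ := h
        exact ⟨e, by rw [hc]; ring⟩
      have hdo : ¬ (2 : ℤ) ∣ d := by
        intro h
        apply h2
        obtain ⟨e, rfl⟩ := h
        exact ⟨e, by rw [hd]; ring⟩
      obtain ⟨e, he⟩ : (2 : ℤ) ∣ c - d := by omega
      refine ⟨e, ?_⟩
      have : w z - w y = 2 ^ k' * (c - d) := by linear_combination hc - hd
      rw [this, he]
      ring
    have hcong₀ : ∀ x ∈ S₀, ∀ y ∈ S₀, (2 : ℤ) ^ (k' + 1) ∣ w x - w y := by
      intro x hx y hy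
      have h1 := (Finset.mem_filter.mp hx).2
      have h2 := (Finset.mem_filter.mp hy).2
      have : w x - w y = (w x - w a) - (w y - w a) := by ring
      rw [this]
      exact dvd_sub h1 h2
    have hcong₁ : ∀ x ∈ S₁, ∀ y ∈ S₁, (2 : ℤ) ^ (k' + 1) ∣ w x - w y := by
      intro x hx y hy
      exact hcong x (Finset.mem_filter.mp hx).1 y (Finset.mem_filter.mp hy).1
        (Finset.mem_filter.mp hx).2 (Finset.mem_filter.mp hy).2
    have hcross : ∀ x ∈ S₀, ∀ y ∈ S₁, ¬ (2 : ℤ) ^ (k' + 1) ∣ w x - w y := by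
      intro x hx y hy h
      apply (Finset.mem_filter.mp hy).2
      have : w y - w a = (w x - w a) - (w x - w y) := by ring
      rw [this]
      exact dvd_sub (Finset.mem_filter.mp hx).2 h
    -- general step
    have step : ∀ T U : Finset ι, T ⊆ S → U ⊆ S → U.Nonempty → 2 ^ m < 2 * T.card →
        (∀ x ∈ T, ∀ y ∈ T, (2 : ℤ) ^ (k' + 1) ∣ w x - w y) →
        (∀ x ∈ T, ∀ y ∈ U, ¬ (2 : ℤ) ^ (k' + 1) ∣ w y - w x) →
        ∃ i₀ ∈ S, ∃ E : Finset ℕ, E.card = m + 1 ∧ (∀ e ∈ E, k ≤ e) ∧ ∃ x : ℕ → ι, ∀ e ∈ E,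
        x e ∈ S ∧ (2 : ℤ) ^ e ∣ w (x e) - w i₀ ∧ ¬ (2 : ℤ) ^ (e + 1) ∣ w (x e) - w i₀ := by
      intro T U hT hU hUn hTc hTT hTU
      obtain ⟨i₀, hi₀, E, hE, hEk, x, hx⟩ := ih (k' + 1) T w
        (hinj.mono (by exact_mod_cast hT)) hTT hTc
      obtain ⟨u, hu⟩ := hUn
      have hk'E : k' ∉ E := by
        intro h
        have := hEk k' h
        omega
      refine ⟨i₀, hT hi₀, insert k' E, ?_, ?_, fun e => if e = k' then u else x e, ?_⟩
      · rw [Finset.card_insert_of_notMem hk'E, hE]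
      · intro e he
        rcases Finset.mem_insert.mp he with he' | he'
        · rw [he']
          exact hkk'
        · have := hEk e he'
          omega
      · intro e he
        rcases Finset.mem_insert.mp he with he' | he'
        · simp only [he', if_true]
          exact ⟨hU hu, hdiv u (hU hu) i₀ (hT hi₀), hTU i₀ hi₀ u hu⟩
        · have hne : e ≠ k' := by
            intro h
            rw [h] at he'
            exact hk'E he'
          simp only [hne, if_false]
          obtain ⟨h1, h2, h3⟩ := hx e he'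
          exact ⟨hT h1, h2, h3⟩
    rw [pow_succ] at hc
    rcases le_total S₁.card S₀.card with hle | hle
    · apply step S₀ S₁ (Finset.filter_subset _ _) (Finset.filter_subset _ _) ⟨b, hb₁⟩ (by omega)
        hcong₀
      intro x hx y hy h
      apply hcross x hx y hy
      rw [← neg_sub]
      exact dvd_neg.mpr h
    · apply step S₁ S₀ (Finset.filter_subset _ _) (Finset.filter_subset _ _) ⟨a, ha₀⟩ (by omega)
        hcong₁
      intro x hx y hy h
      exact hcross y hy x hx h

lemma DissF.mono {S T : Finset ι} {w : ι → ℤ} (h : DissF S w) (hTS : T ⊆ S) : DissF T w := by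
  classical
  intro ε hε hsum i hi
  have hs : ∑ j ∈ S, (if j ∈ T then ε j else 0) * w j = ∑ j ∈ T, ε j * w j := by
    rw [← Finset.sum_subset hTS]
    · apply Finset.sum_congr rfl
      intro j hj
      rw [if_pos hj]
    · intro j _ hj
      rw [if_neg hj, zero_mul]
  have h1 := h (fun j => if j ∈ T then ε j else 0) (by
    intro j _
    by_cases hj : j ∈ T
    · simp only [hj, if_true]
      exact hε j hj
    · simp [hj]) (hs.trans hsum) i (hTS hi)
  simpa [hi] using h1

/-- odd values congruent to one mod four: the tree selection is dissociated up to `r` elements -/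
lemma class_lemma (S : Finset ι) (w : ι → ℤ) (hinj : Set.InjOn w S)
    (hodd : ∀ x ∈ S, (4 : ℤ) ∣ w x - 1) (m r : ℕ) (hm : 2 ^ m < 2 * S.card)
    (hr : m + 1 < 2 ^ (r + 2) + r) : ∃ B ⊆ S, m + 1 ≤ B.card + r ∧ DissF B w := by
  classical
  obtain ⟨i₀, hi₀, E, hE, hEk, x, hx⟩ := exists_path m 2 S w hinj (by
    intro a ha b hb
    have h1 := hodd a ha
    have h2 := hodd b hb
    have : w a - w b = (w a - 1) - (w b - 1) := by ring
    rw [this]
    exact dvd_sub h1 h2) hm
  -- remove the small levels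
  set E₁ := E.filter (fun e => r + 2 ≤ e) with hE₁
  have hcard1 : m ≤ E₁.card + r := by
    have h1 : (E.filter (fun e => ¬ r + 2 ≤ e)).card ≤ r := by
      calc (E.filter (fun e => ¬ r + 2 ≤ e)).card ≤ (Finset.Ico 2 (r + 2)).card := by
            apply Finset.card_le_card
            intro e he
            obtain ⟨h2, h3⟩ := Finset.mem_filter.mp he
            rw [Finset.mem_Ico]
            exact ⟨hEk e h2, by omega⟩
        _ = r := by rw [Nat.card_Ico]; omega
    have h2 : E₁.card + (E.filter (fun e => ¬ r + 2 ≤ e)).card = E.card :=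
      Finset.card_filter_add_card_filter_not _
    omega
  obtain ⟨E₂, hE₂, hcard2⟩ := Finset.exists_subset_card_eq (s := E₁) (n := m - r) (by omega)
  have hE₂E : E₂ ⊆ E := hE₂.trans (Finset.filter_subset _ _)
  have hE₂r : ∀ e ∈ E₂, r + 2 ≤ e := fun e he => (Finset.mem_filter.mp (hE₂ he)).2
  -- injectivity
  have hxinj : Set.InjOn x E₂ := by
    intro e he f hf hef
    obtain ⟨_, h1, h2⟩ := hx e (hE₂E he)
    obtain ⟨_, h3, h4⟩ := hx f (hE₂E hf)
    rw [hef] at h1 h2
    rcases lt_trichotomy e f with h | h | h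
    · exact absurd ((pow_dvd_pow _ (by omega)).trans h3) h2
    · exact h
    · exact absurd ((pow_dvd_pow _ (by omega)).trans h1) h4
  have hi₀x : i₀ ∉ E₂.image x := by
    intro h
    obtain ⟨e, he, hxe⟩ := Finset.mem_image.mp h
    obtain ⟨_, _, h2⟩ := hx e (hE₂E he)
    rw [hxe, sub_self] at h2
    exact h2 (dvd_zero _)
  refine ⟨insert i₀ (E₂.image x), ?_, ?_, ?_⟩
  · intro j hj
    rcases Finset.mem_insert.mp hj with rfl | hj
    · exact hi₀
    · obtain ⟨e, he, rfl⟩ := Finset.mem_image.mp hj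
      exact (hx e (hE₂E he)).1
  · rw [Finset.card_insert_of_notMem hi₀x, Finset.card_image_of_injOn hxinj, hcard2]
    omega
  · intro ε hε hsum
    rw [Finset.sum_insert hi₀x, Finset.sum_image hxinj] at hsum
    have hε₀ : |ε i₀| ≤ 1 := hε i₀ (Finset.mem_insert_self _ _)
    have hεe : ∀ e ∈ E₂, |ε (x e)| ≤ 1 := fun e he =>
      hε _ (Finset.mem_insert_of_mem (Finset.mem_image_of_mem _ he))
    have hodd0 : ¬ (2 : ℤ) ∣ w i₀ := by
      have := hodd i₀ hi₀
      omega
    by_cases hall : ∀ e ∈ E₂, ε (x e) = 0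
    · have hz : ∑ e ∈ E₂, ε (x e) * w (x e) = 0 := by
        apply Finset.sum_eq_zero
        intro e he
        rw [hall e he, zero_mul]
      rw [hz, add_zero] at hsum
      have h0 : ε i₀ = 0 := by
        rcases mul_eq_zero.mp hsum with h | h
        · exact h
        · exfalso
          apply hodd0
          rw [h]
          exact dvd_zero _
      intro j hj
      rcases Finset.mem_insert.mp hj with rfl | hj
      · exact h0
      · obtain ⟨e, he, rfl⟩ := Finset.mem_image.mp hj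
        exact hall e he
    · exfalso
      push Not at hall
      -- minimal level
      set E₃ := E₂.filter (fun e => ε (x e) ≠ 0) with hE₃
      have hne : E₃.Nonempty := by
        obtain ⟨e, he, h⟩ := hall
        exact ⟨e, Finset.mem_filter.mpr ⟨he, h⟩⟩
      set e₀ := E₃.min' hne with he₀
      have he₀mem : e₀ ∈ E₃ := Finset.min'_mem _ _
      obtain ⟨he₀E, he₀ne⟩ := Finset.mem_filter.mp he₀mem
      have hmin : ∀ e ∈ E₂, e < e₀ → ε (x e) = 0 := by
        intro e he hlt
        by_contra h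
        have := Finset.min'_le E₃ e (Finset.mem_filter.mpr ⟨he, h⟩)
        omega
      set t := ε i₀ + ∑ e ∈ E₂, ε (x e) with ht
      set sg := ∑ e ∈ E₂, ε (x e) * (w (x e) - w i₀) with hsg
      have hrel : t * w i₀ + sg = 0 := by
        rw [ht, hsg]
        simp only [mul_sub, Finset.sum_sub_distrib, ← Finset.sum_mul]
        linarith
      -- divisibility of the sum
      have hrest : (2 : ℤ) ^ (e₀ + 1) ∣ ∑ e ∈ E₂.erase e₀, ε (x e) * (w (x e) - w i₀) := by
        apply Finset.dvd_sum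
        intro e he
        obtain ⟨hne', heE⟩ := Finset.mem_erase.mp he
        rcases lt_or_gt_of_ne hne' with h | h
        · rw [hmin e heE h, zero_mul]
          exact dvd_zero _
        · exact dvd_mul_of_dvd_right ((pow_dvd_pow _ (by omega)).trans (hx e (hE₂E heE)).2.1) _
      have hsplit : sg = ε (x e₀) * (w (x e₀) - w i₀)
          + ∑ e ∈ E₂.erase e₀, ε (x e) * (w (x e) - w i₀) :=
        (Finset.add_sum_erase _ _ he₀E).symm
      have hone : ε (x e₀) = 1 ∨ ε (x e₀) = -1 := by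
        have h1 := hεe e₀ he₀E
        rw [abs_le] at h1
        omega
      obtain ⟨_, hd1, hd2⟩ := hx e₀ (hE₂E he₀E)
      have hsg1 : (2 : ℤ) ^ e₀ ∣ sg := by
        rw [hsplit]
        exact dvd_add (dvd_mul_of_dvd_right hd1 _)
          ((pow_dvd_pow _ (by omega)).trans hrest)
      have hsg2 : ¬ (2 : ℤ) ^ (e₀ + 1) ∣ sg := by
        rw [hsplit]
        intro h
        have h2 := (dvd_add_left hrest).mp h
        apply hd2
        rcases hone with h3 | h3
        · rwa [h3, one_mul] at h2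
        · rw [h3, neg_one_mul] at h2
          exact (dvd_neg).mp h2
      have htdvd : (2 : ℤ) ^ e₀ ∣ t := by
        have h1 : (2 : ℤ) ^ e₀ ∣ t * w i₀ := by
          have : t * w i₀ = -sg := by linarith
          rw [this]
          exact dvd_neg.mpr hsg1
        have hcop : IsCoprime ((2 : ℤ) ^ e₀) (w i₀) := by
          apply IsCoprime.pow_left
          rw [Int.prime_two.coprime_iff_not_dvd]
          exact hodd0
        exact hcop.dvd_of_dvd_mul_right h1
      have htne : t ≠ 0 := by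
        intro h
        apply hsg2
        have : sg = 0 := by
          rw [h, zero_mul, zero_add] at hrel
          exact hrel
        rw [this]
        exact dvd_zero _
      have htabs : |t| ≤ 1 + (m - r : ℕ) := by
        rw [ht]
        calc _ ≤ |ε i₀| + |∑ e ∈ E₂, ε (x e)| := abs_add_le _ _
          _ ≤ 1 + ∑ e ∈ E₂, |ε (x e)| := add_le_add hε₀ (Finset.abs_sum_le_sum_abs _ _)
          _ ≤ 1 + ∑ e ∈ E₂, (1 : ℤ) := by
              gcongr with e he
              exact hεe e he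
          _ = 1 + (m - r : ℕ) := by
              rw [Finset.sum_const, hcard2]
              simp
      have hle : (2 : ℤ) ^ e₀ ≤ |t| := Int.le_of_dvd (abs_pos.mpr htne) ((dvd_abs _ _).mpr htdvd)
      have hpow : (2 : ℤ) ^ (r + 2) ≤ 2 ^ e₀ := pow_le_pow_right₀ (by norm_num) (hE₂r e₀ he₀E)
      have hr' : ((m + 1 : ℕ) : ℤ) < ((2 ^ (r + 2) + r : ℕ) : ℤ) := by exact_mod_cast hr
      push_cast at hr'
      have h9 : ((m - r : ℕ) : ℤ) ≤ max (m - r : ℤ) 0 := by omega
      rcases le_or_gt r m with h10 | h10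
      · have : ((m - r : ℕ) : ℤ) = (m : ℤ) - r := by omega
        omega
      · have h11 : m - r = 0 := by omega
        rw [h11] at htabs
        have h12 : (4 : ℤ) ≤ 2 ^ (r + 2) := by
          have : (2 : ℤ) ^ 2 ≤ 2 ^ (r + 2) := pow_le_pow_right₀ (by norm_num) (by omega)
          linarith
        push_cast at htabs
        omega

end Pool.Agent.Helper8.Diss
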