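import Mathlib
import Pool.Agent.Helper8.Diss.Tree

set_option autoImplicit false
set_option maxHeartbeats 1000000
set_option linter.unusedSectionVars false

namespace Pool.Agent.Helper8.Diss

open Finset

variable {ι : Type*} [DecidableEq ι]

/-- the least 2-adic valuation occurring in a nonempty set of nonzero integers -/
lemma exists_min_val (S : Finset ι) (w : ι → ℤ) (h0 : ∀ i ∈ S, w i ≠ 0) (hS : S.Nonempty) :
    ∃ v : ℕ, (∀ i ∈ S, (2 : ℤ) ^ v ∣ w i) ∧ ∃ i ∈ S, ¬ (2 : ℤ) ^ (v + 1) ∣ w i := by
  classical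
  obtain ⟨a, ha⟩ := hS
  have hex : ∃ j : ℕ, ¬ ∀ x ∈ S, (2 : ℤ) ^ j ∣ w x := by
    refine ⟨(w a).natAbs, fun h => ?_⟩
    have h1 := h a ha
    have h3 : (2 : ℤ) ^ (w a).natAbs ≤ |w a| :=
      Int.le_of_dvd (abs_pos.mpr (h0 a ha)) ((dvd_abs _ _).mpr h1)
    have h4 : (w a).natAbs < 2 ^ (w a).natAbs := Nat.lt_two_pow_self
    have h5 : (((w a).natAbs : ℕ) : ℤ) < (2 : ℤ) ^ (w a).natAbs := by exact_mod_cast h4
    rw [Int.natCast_natAbs] at h5
    linarith
  obtain ⟨j₀, hspec, hmin⟩ : ∃ j₀ : ℕ, (¬ ∀ x ∈ S, (2 : ℤ) ^ j₀ ∣ w x) ∧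
      ∀ j < j₀, ∀ x ∈ S, (2 : ℤ) ^ j ∣ w x := by
    refine ⟨Nat.find hex, Nat.find_spec hex, fun j hj => ?_⟩
    exact not_not.mp (Nat.find_min hex hj)
  have hpos : 0 < j₀ := by
    by_contra hle
    push Not at hle
    apply hspec
    intro x hx
    have : j₀ = 0 := by omega
    rw [this, pow_zero]
    exact one_dvd _
  obtain ⟨k', rfl⟩ : ∃ k', j₀ = k' + 1 := ⟨j₀ - 1, by omega⟩
  refine ⟨k', hmin k' (by omega), ?_⟩
  push Not at hspec
  exact hspec

/-- the integer version -/
lemma int_main (r : ℕ) : ∀ (s : ℕ) (S : Finset ι) (w : ι → ℤ), (∀ i ∈ S, w i ≠ 0) →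
    (∀ i ∈ S, ∀ j ∈ S, |w i| = |w j| → i = j) → 2 ^ s ≤ S.card → s + 1 < 2 ^ (r + 2) + r →
    ∃ B ⊆ S, s + 1 ≤ B.card + r ∧ DissF B w := by
  classical
  intro s
  induction s with
  | zero =>
    intro S w h0 habs hc hr
    have hS : S.Nonempty := by
      rw [← Finset.card_pos]
      have : (2 : ℕ) ^ 0 = 1 := pow_zero _
      omega
    obtain ⟨a, ha⟩ := hS
    refine ⟨{a}, by simpa using ha, by simp, ?_⟩
    intro ε hε hsum i hi
    rw [Finset.mem_singleton] at hi
    rw [Finset.sum_singleton] at hsum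
    rw [hi]
    rcases mul_eq_zero.mp hsum with h | h
    · exact h
    · exact absurd h (h0 a ha)
  | succ s ih =>
    intro S w h0 habs hc hr
    have hS : S.Nonempty := by
      rw [← Finset.card_pos]
      have : 1 ≤ 2 ^ (s + 1) := Nat.one_le_two_pow
      omega
    obtain ⟨v, hv, c, hcS, hcv⟩ := exists_min_val S w h0 hS
    set C := S.filter (fun i => ¬ (2 : ℤ) ^ (v + 1) ∣ w i) with hC
    have hCS : C ⊆ S := Finset.filter_subset _ _
    by_cases hbig : 2 ^ (s + 1) < 2 * C.card
    · -- the class is large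
      have hquot : ∀ i : ι, ∃ q : ℤ × ℤ, i ∈ C →
          (w i = 2 ^ v * (q.1 * q.2) ∧ (q.1 = 1 ∨ q.1 = -1) ∧ (4 : ℤ) ∣ q.2 - 1) := by
        intro i
        by_cases hi : i ∈ C
        · obtain ⟨hiS, hi2⟩ := Finset.mem_filter.mp hi
          obtain ⟨q, hq⟩ := hv i hiS
          have hqo : ¬ (2 : ℤ) ∣ q := by
            intro h
            apply hi2
            obtain ⟨e, rfl⟩ := h
            exact ⟨e, by rw [hq]; ring⟩
          rcases (by omega : q % 4 = 1 ∨ q % 4 = 3) with h | h
          · exact ⟨(1, q), fun _ => ⟨by rw [hq]; ring, Or.inl rfl, by simp only; omega⟩⟩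
          · exact ⟨(-1, -q), fun _ => ⟨by rw [hq]; ring, Or.inr rfl, by simp only; omega⟩⟩
        · exact ⟨(0, 0), fun h => absurd h hi⟩
      choose q hq using hquot
      obtain ⟨B, hBC, hBc, hB⟩ := class_lemma C (fun i => (q i).2) (by
        intro i hi j hj hij
        have hij' : (q i).2 = (q j).2 := hij
        obtain ⟨h1, h2, _⟩ := hq i hi
        obtain ⟨h3, h4, _⟩ := hq j hj
        apply habs i (hCS hi) j (hCS hj)
        rw [h1, h3, hij']
        rcases h2 with h | h <;> rcases h4 with h' | h' <;> rw [h, h'] <;> simp [abs_mul])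
        (fun x hx => (hq x hx).2.2) (s + 1) r hbig hr
      refine ⟨B, hBC.trans hCS, hBc, ?_⟩
      intro ε hε hsum i hi
      have h1 := hB (fun i => ε i * (q i).1) (by
        intro j hj
        rcases (hq j (hBC hj)).2.1 with h | h
        · simp only [h, mul_one]
          exact hε j hj
        · simp only [h, mul_neg, mul_one, abs_neg]
          exact hε j hj) (by
        have h2 : (2 : ℤ) ^ v * ∑ i ∈ B, ε i * (q i).1 * (q i).2 = 0 := by
          rw [← hsum, Finset.mul_sum]
          apply Finset.sum_congr rfl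
          intro j hj
          rw [(hq j (hBC hj)).1]
          ring
        rcases mul_eq_zero.mp h2 with h | h
        · exact absurd h (by positivity)
        · exact h) i hi
      rcases (hq i (hBC hi)).2.1 with h | h
      · simpa [h] using h1
      · simpa [h] using h1
    · -- the rest is large
      push Not at hbig
      set R := S.filter (fun i => (2 : ℤ) ^ (v + 1) ∣ w i) with hR
      have hRS : R ⊆ S := Finset.filter_subset _ _
      have hsum : R.card + C.card = S.card := Finset.card_filter_add_card_filter_not _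
      obtain ⟨B, hBR, hBc, hB⟩ := ih R w (fun i hi => h0 i (hRS hi))
        (fun i hi j hj => habs i (hRS hi) j (hRS hj)) (by rw [pow_succ] at hbig hc; omega) (by omega)
      have hcB : c ∉ B := fun h => hcv (Finset.mem_filter.mp (hBR h)).2
      refine ⟨insert c B, ?_, ?_, ?_⟩
      · intro i hi
        rcases Finset.mem_insert.mp hi with h | h
        · rw [h]; exact hcS
        · exact hRS (hBR h)
      · rw [Finset.card_insert_of_notMem hcB]
        omega
      · intro ε hε hsum0 i hi
        rw [Finset.sum_insert hcB] at hsum0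
        have hd : (2 : ℤ) ^ (v + 1) ∣ ∑ i ∈ B, ε i * w i := by
          apply Finset.dvd_sum
          intro j hj
          exact dvd_mul_of_dvd_right (Finset.mem_filter.mp (hBR hj)).2 _
        have hεc : ε c = 0 := by
          by_contra hne
          have h1 := hε c (Finset.mem_insert_self _ _)
          rw [abs_le] at h1
          have h2 : (2 : ℤ) ^ (v + 1) ∣ ε c * w c := by
            have : ε c * w c = -∑ i ∈ B, ε i * w i := by linarith
            rw [this]
            exact dvd_neg.mpr hd
          rcases (by omega : ε c = 1 ∨ ε c = -1) with h | h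
          · rw [h, one_mul] at h2
            exact hcv h2
          · rw [h, neg_one_mul] at h2
            exact hcv ((dvd_neg).mp h2)
        rw [hεc, zero_mul, zero_add] at hsum0
        rcases Finset.mem_insert.mp hi with h | h
        · rw [h]; exact hεc
        · exact hB ε (fun j hj => hε j (Finset.mem_insert_of_mem hj)) hsum0 i h

/-- integer weights for a finite set of reals -/
lemma exists_weights (S : Finset ℝ) (h0 : ∀ a ∈ S, a ≠ 0)
    (habs : ∀ a ∈ S, ∀ b ∈ S, a ≠ b → a + b ≠ 0) :
    ∃ w : ℝ → ℤ, (∀ a ∈ S, w a ≠ 0) ∧ (∀ a ∈ S, ∀ b ∈ S, |w a| = |w b| → a = b) ∧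
      ∀ t ⊆ S, ∀ u ⊆ S, ∑ a ∈ t, a = ∑ a ∈ u, a → ∑ a ∈ t, w a = ∑ a ∈ u, w a := by
  classical
  set F : Finset ℝ := (S ∪ (S ×ˢ S).image (fun p => p.1 - p.2) ∪
    (S ×ˢ S).image (fun p => p.1 + p.2)).erase 0 with hF
  obtain ⟨f, hf⟩ := Module.exists_dual_forall_apply_ne_zero (K := ℚ) (fun x : F => (x : ℝ))
    (fun x => (Finset.mem_erase.mp x.2).1)
  have hfS : ∀ a ∈ S, f a ≠ 0 := fun a ha => hf ⟨a, by
    rw [hF, Finset.mem_erase]
    exact ⟨h0 a ha, Finset.mem_union_left _ (Finset.mem_union_left _ ha)⟩⟩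
  have hfsub : ∀ a ∈ S, ∀ b ∈ S, a ≠ b → f (a - b) ≠ 0 := fun a ha b hb hab => hf ⟨a - b, by
    rw [hF, Finset.mem_erase]
    exact ⟨sub_ne_zero.mpr hab, Finset.mem_union_left _ (Finset.mem_union_right _
      (Finset.mem_image.mpr ⟨(a, b), Finset.mem_product.mpr ⟨ha, hb⟩, rfl⟩))⟩⟩
  have hfadd : ∀ a ∈ S, ∀ b ∈ S, a ≠ b → f (a + b) ≠ 0 := fun a ha b hb hab => hf ⟨a + b, by
    rw [hF, Finset.mem_erase]
    exact ⟨habs a ha b hb hab, Finset.mem_union_right _
      (Finset.mem_image.mpr ⟨(a, b), Finset.mem_product.mpr ⟨ha, hb⟩, rfl⟩)⟩⟩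
  set D : ℕ := ∏ a ∈ S, (f a).den with hD
  have hD0 : (D : ℚ) ≠ 0 := by
    rw [hD]
    push_cast
    apply Finset.prod_ne_zero_iff.mpr
    intro a _
    exact_mod_cast (f a).den_nz
  have hw : ∀ a ∈ S, ((f a * D).num : ℚ) = f a * D := by
    intro a ha
    rw [Rat.coe_int_num_of_den_eq_one]
    obtain ⟨e, he⟩ : (f a).den ∣ D := Finset.dvd_prod_of_mem _ ha
    have : f a * D = (((f a).num * e : ℤ) : ℚ) := by
      rw [he]
      push_cast
      rw [← mul_assoc, Rat.mul_den_eq_num]
    rw [this]
    exact Rat.den_intCast _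
  refine ⟨fun a => (f a * D).num, ?_, ?_, ?_⟩
  · intro a ha h
    have h1 := hw a ha
    have h2 : (f a * D).num = 0 := h
    rw [h2] at h1
    have : f a * D ≠ 0 := mul_ne_zero (hfS a ha) hD0
    exact this (by rw [← h1]; simp)
  · intro a ha b hb h
    by_contra hab
    rcases abs_eq_abs.mp h with h1 | h1
    · apply hfsub a ha b hb hab
      have h2 : f a * D = f b * D := by
        rw [← hw a ha, ← hw b hb]
        exact_mod_cast h1
      rw [map_sub, mul_right_cancel₀ hD0 h2, sub_self]
    · apply hfadd a ha b hb hab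
      have h2 : f a * D = (-f b) * D := by
        have h3 : ((f a * D).num : ℚ) = -((f b * D).num : ℚ) := by exact_mod_cast h1
        rw [hw a ha, hw b hb] at h3
        rw [h3]; ring
      rw [map_add, mul_right_cancel₀ hD0 h2, neg_add_cancel]
  · intro t ht u hu htu
    have h1 : ∑ a ∈ t, f a = ∑ a ∈ u, f a := by
      rw [← map_sum, ← map_sum, htu]
    have h2 : ∀ z ⊆ S, ((∑ a ∈ z, (f a * D).num : ℤ) : ℚ) = (∑ a ∈ z, f a) * D := by
      intro z hz
      push_cast
      rw [Finset.sum_mul]
      apply Finset.sum_congr rfl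
      intro a ha
      exact hw a (hz ha)
    have h3 := h2 t ht
    rw [h1, ← h2 u hu] at h3
    exact_mod_cast h3

/-- the main statement -/
theorem main (A : Finset ℝ) (r : ℕ) (hr : Nat.log 2 A.card < 2 ^ (r + 2) + r) :
    ∃ B ⊆ A, Nat.log 2 A.card ≤ B.card + r ∧ AddDissociated (B : Set ℝ) := by
  classical
  rcases Nat.eq_zero_or_pos (Nat.log 2 A.card) with hz | hpos
  · refine ⟨∅, Finset.empty_subset _, by omega, ?_⟩
    intro t ht u hu _
    have h1 : t = ∅ := by
      have : (t : Set ℝ) ⊆ ∅ := by simpa using ht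
      exact_mod_cast Set.subset_empty_iff.mp this
    have h2 : u = ∅ := by
      have : (u : Set ℝ) ⊆ ∅ := by simpa using hu
      exact_mod_cast Set.subset_empty_iff.mp this
    rw [h1, h2]
  · obtain ⟨s, hs⟩ : ∃ s, Nat.log 2 A.card = s + 1 := ⟨Nat.log 2 A.card - 1, by omega⟩
    have hcard : 2 ^ (s + 1) ≤ A.card := by
      rw [← hs]
      apply Nat.pow_log_le_self
      intro h
      rw [h] at hpos
      simp at hpos
    -- a large one-signed part
    obtain ⟨S, hSA, hS0, hSadd, hSc⟩ : ∃ S ⊆ A, (∀ a ∈ S, a ≠ 0) ∧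
        (∀ a ∈ S, ∀ b ∈ S, a ≠ b → a + b ≠ 0) ∧ 2 ^ s ≤ S.card := by
      set P := A.filter (fun a => 0 < a) with hP
      set N := A.filter (fun a => a < 0) with hN
      have hcov : A ⊆ insert 0 (P ∪ N) := by
        intro a ha
        rcases lt_trichotomy a 0 with h | h | h
        · exact Finset.mem_insert_of_mem (Finset.mem_union_right _
            (Finset.mem_filter.mpr ⟨ha, h⟩))
        · rw [h]; exact Finset.mem_insert_self _ _
        · exact Finset.mem_insert_of_mem (Finset.mem_union_left _
            (Finset.mem_filter.mpr ⟨ha, h⟩))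
      have h1 : A.card ≤ P.card + N.card + 1 := by
        calc A.card ≤ (insert 0 (P ∪ N)).card := Finset.card_le_card hcov
          _ ≤ (P ∪ N).card + 1 := Finset.card_insert_le _ _
          _ ≤ P.card + N.card + 1 := by
              have := Finset.card_union_le P N
              omega
      rw [pow_succ] at hcard
      rcases le_total (2 ^ s) P.card with h | h
      · refine ⟨P, Finset.filter_subset _ _, ?_, ?_, h⟩
        · intro a ha
          exact (Finset.mem_filter.mp ha).2.ne'
        · intro a ha b hb _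
          have h1 := (Finset.mem_filter.mp ha).2
          have h2 := (Finset.mem_filter.mp hb).2
          positivity
      · rcases h.eq_or_lt with h' | h'
        · refine ⟨P, Finset.filter_subset _ _, ?_, ?_, h'.ge⟩
          · intro a ha
            exact (Finset.mem_filter.mp ha).2.ne'
          · intro a ha b hb _
            have h1 := (Finset.mem_filter.mp ha).2
            have h2 := (Finset.mem_filter.mp hb).2
            positivity
        · refine ⟨N, Finset.filter_subset _ _, ?_, ?_, by omega⟩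
          · intro a ha
            exact (Finset.mem_filter.mp ha).2.ne
          · intro a ha b hb _
            have h1 := (Finset.mem_filter.mp ha).2
            have h2 := (Finset.mem_filter.mp hb).2
            exact (add_neg h1 h2).ne
    obtain ⟨w, hw0, hwabs, hwrel⟩ := exists_weights S hS0 hSadd
    obtain ⟨B, hBS, hBc, hB⟩ := int_main r s S w hw0 hwabs hSc (by omega)
    refine ⟨B, hBS.trans hSA, by omega, ?_⟩
    intro t ht u hu htu
    have htB : t ⊆ B := by exact_mod_cast ht
    have huB : u ⊆ B := by exact_mod_cast hu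
    have hrel := hwrel t (htB.trans hBS) u (huB.trans hBS) htu
    have h1 := hB (fun a => (if a ∈ t then 1 else 0) - (if a ∈ u then 1 else 0)) (by
      intro a _
      by_cases h1 : a ∈ t <;> by_cases h2 : a ∈ u <;> simp [h1, h2]) (by
      have ht' : ∑ a ∈ B, (if a ∈ t then (1 : ℤ) else 0) * w a = ∑ a ∈ t, w a := by
        rw [← Finset.sum_subset htB]
        · apply Finset.sum_congr rfl
          intro a ha
          rw [if_pos ha, one_mul]
        · intro a _ ha
          rw [if_neg ha, zero_mul]
      have hu' : ∑ a ∈ B, (if a ∈ u then (1 : ℤ) else 0) * w a = ∑ a ∈ u, w a := by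
        rw [← Finset.sum_subset huB]
        · apply Finset.sum_congr rfl
          intro a ha
          rw [if_pos ha, one_mul]
        · intro a _ ha
          rw [if_neg ha, zero_mul]
      simp only [sub_mul, Finset.sum_sub_distrib]
      rw [ht', hu', hrel, sub_self])
    ext a
    constructor
    · intro ha
      by_contra hau
      have := h1 a (htB ha)
      simp [ha, hau] at this
    · intro ha
      by_contra hat
      have := h1 a (huB ha)
      simp [ha, hat] at this

end Pool.Agent.Helper8.Diss
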